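import Pool.Agent.helper43.BMH.Spec

set_option autoImplicit false

namespace Pool.Agent.helper43.BMH

theorem EXH_pos {ι G : Type} [Fintype ι] [Nonempty ι] [AddCommGroup G] [DecidableEq G]
    (f : ι → G) (i : ι) : 0 < fr f (f i) := by
  unfold fr
  have hn : (0 : ℝ) < (Fintype.card ι : ℝ) := by exact_mod_cast Fintype.card_pos
  have h1 : 0 < (Finset.univ.filter fun j => f j = f i).card :=
    Finset.card_pos.2 ⟨i, by rw [Finset.mem_filter]; exact ⟨Finset.mem_univ _, rfl⟩⟩
  have h2 : (0 : ℝ) < ((Finset.univ.filter fun j => f j = f i).card : ℝ) := by exact_mod_cast h1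
  positivity

theorem EXH_le {ι G : Type} [Fintype ι] [Nonempty ι] [AddCommGroup G] [DecidableEq G]
    (f : ι → G) (i : ι) : fr f (f i) ≤ 1 := by
  unfold fr
  have hn : (0 : ℝ) < (Fintype.card ι : ℝ) := by exact_mod_cast Fintype.card_pos
  have h1 : ((Finset.univ.filter fun j => f j = f i).card : ℝ) ≤ (Fintype.card ι : ℝ) := by
    exact_mod_cast Finset.card_le_univ _
  have h2 : ((Finset.univ.filter fun j => f j = -f i).card : ℝ) ≤ (Fintype.card ι : ℝ) := by
    exact_mod_cast Finset.card_le_univ _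
  rw [div_le_one (by positivity)]
  linarith

theorem t_exh : EXH := by
  intro ι G _ _ _ _ f
  have hn : (0 : ℝ) < (Fintype.card ι : ℝ) := by exact_mod_cast Fintype.card_pos
  have e : -(Fintype.card ι : ℝ) * ent f = ∑ i, Real.log (fr f (f i)) := by
    unfold ent
    field_simp
  refine ⟨?_, ?_, EXH_pos f, EXH_le f⟩
  · rw [e, Real.exp_sum]
    exact Finset.prod_congr rfl fun i _ => Real.exp_log (EXH_pos f i)
  · have h : ∑ i, Real.log (fr f (f i)) ≤ 0 :=
      Finset.sum_nonpos fun i _ => Real.log_nonpos (EXH_pos f i).le (EXH_le f i)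
    rw [← e] at h
    have h' : 0 ≤ (Fintype.card ι : ℝ) * ent f := by linarith
    exact nonneg_of_mul_nonneg_right h' hn

end Pool.Agent.helper43.BMH
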