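import Pool.Agent.helper43.BMH.Spec

set_option autoImplicit false

namespace Pool.Agent.helper43.BMH

theorem PIN_avg {Ω α : Type} [Fintype Ω] [DecidableEq α] (X : Ω → α) (F : α → ℝ) :
    (∑ w, F (X w)) / (Fintype.card Ω : ℝ) = ∑ a ∈ Finset.univ.image X, pr X a * F a := by
  rw [Finset.sum_comp F X, Finset.sum_div]
  refine Finset.sum_congr rfl fun a _ => ?_
  unfold pr
  rw [nsmul_eq_mul]
  ring

theorem PIN_avgC {Ω α : Type} [Fintype Ω] [DecidableEq α] (X : Ω → α) (F : α → ℂ) :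
    (∑ w, F (X w)) / (Fintype.card Ω : ℂ) = ∑ a ∈ Finset.univ.image X, (pr X a : ℂ) * F a := by
  rw [Finset.sum_comp F X, Finset.sum_div]
  refine Finset.sum_congr rfl fun a _ => ?_
  unfold pr
  rw [nsmul_eq_mul]
  push_cast
  ring

theorem PIN_nonneg {Ω α : Type} [Fintype Ω] [DecidableEq α] (X : Ω → α) (a : α) : 0 ≤ pr X a := by
  unfold pr
  positivity

theorem PIN_pos {Ω α : Type} [Fintype Ω] [DecidableEq α] (X : Ω → α) (w : Ω) : 0 < pr X (X w) := by
  unfold pr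
  have h1 : 0 < (Finset.univ.filter fun v => X v = X w).card :=
    Finset.card_pos.2 ⟨w, by rw [Finset.mem_filter]; exact ⟨Finset.mem_univ _, rfl⟩⟩
  have h2 : 0 < Fintype.card Ω := Fintype.card_pos_iff.2 ⟨w⟩
  have h3 : (0 : ℝ) < ((Finset.univ.filter fun v => X v = X w).card : ℝ) := by exact_mod_cast h1
  have h4 : (0 : ℝ) < (Fintype.card Ω : ℝ) := by exact_mod_cast h2
  positivity

theorem PIN_zero {Ω α : Type} [Fintype Ω] [DecidableEq α] (X : Ω → α) (a : α)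
    (ha : a ∉ Finset.univ.image X) : pr X a = 0 := by
  unfold pr
  have : (Finset.univ.filter fun v => X v = a) = ∅ := by
    rw [Finset.filter_eq_empty_iff]
    intro v _ hv
    exact ha (Finset.mem_image.2 ⟨v, Finset.mem_univ _, hv⟩)
  rw [this]
  simp

theorem PIN_one {Ω α : Type} [Fintype Ω] [Nonempty Ω] [DecidableEq α] (X : Ω → α) :
    ∑ a ∈ Finset.univ.image X, pr X a = 1 := by
  have h := PIN_avg X (fun _ => 1)
  simp only [mul_one, Finset.sum_const, Finset.card_univ, nsmul_eq_mul] at h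
  rw [← h]
  have h4 : (0 : ℝ) < (Fintype.card Ω : ℝ) := by exact_mod_cast Fintype.card_pos
  exact div_self h4.ne'

theorem PIN_sub {Ω α β : Type} [Fintype Ω] [DecidableEq α] [DecidableEq β] (X : Ω → α) (Y : Ω → β) :
    Finset.univ.image (fun w => (X w, Y w)) ⊆ Finset.univ.image X ×ˢ Finset.univ.image Y := by
  intro z hz
  obtain ⟨w, _, rfl⟩ := Finset.mem_image.1 hz
  rw [Finset.mem_product]
  exact ⟨Finset.mem_image_of_mem _ (Finset.mem_univ _), Finset.mem_image_of_mem _ (Finset.mem_univ _)⟩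

theorem PIN_joint {Ω α β : Type} [Fintype Ω] [DecidableEq α] [DecidableEq β] (X : Ω → α) (Y : Ω → β)
    (F : α × β → ℝ) :
    (∑ w, F (X w, Y w)) / (Fintype.card Ω : ℝ) =
      ∑ z ∈ Finset.univ.image X ×ˢ Finset.univ.image Y, pr (fun w => (X w, Y w)) z * F z := by
  rw [PIN_avg (fun w => (X w, Y w)) F]
  refine Finset.sum_subset (PIN_sub X Y) fun z _ hz => ?_
  rw [PIN_zero _ z hz, zero_mul]

theorem PIN_jointC {Ω α β : Type} [Fintype Ω] [DecidableEq α] [DecidableEq β] (X : Ω → α) (Y : Ω → β)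
    (F : α × β → ℂ) :
    (∑ w, F (X w, Y w)) / (Fintype.card Ω : ℂ) =
      ∑ z ∈ Finset.univ.image X ×ˢ Finset.univ.image Y, (pr (fun w => (X w, Y w)) z : ℂ) * F z := by
  rw [PIN_avgC (fun w => (X w, Y w)) F]
  refine Finset.sum_subset (PIN_sub X Y) fun z _ hz => ?_
  rw [PIN_zero _ z hz, Complex.ofReal_zero, zero_mul]

theorem PIN_log (P Q : ℝ) (hP : 0 < P) (hQ : 0 < Q) :
    2 - 2 * Real.sqrt (Q / P) ≤ Real.log P - Real.log Q := by
  have h0 : 0 < Q / P := div_pos hQ hP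
  have h1 := Real.log_le_sub_one_of_pos (Real.sqrt_pos.2 h0)
  rw [Real.log_sqrt h0.le, Real.log_div hQ.ne' hP.ne'] at h1
  linarith

theorem PIN_mul_sqrt (P Q : ℝ) (hP : 0 ≤ P) : P * Real.sqrt (Q / P) = Real.sqrt P * Real.sqrt Q := by
  rcases eq_or_lt_of_le hP with h | h
  · rw [← h, Real.sqrt_zero, zero_mul, zero_mul]
  · rw [Real.sqrt_div' Q hP]
    have h1 : Real.sqrt P * Real.sqrt P = P := Real.mul_self_sqrt hP
    have h2 : 0 < Real.sqrt P := Real.sqrt_pos.2 h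
    rw [mul_div_assoc', div_eq_iff h2.ne']
    nth_rw 1 [← h1]
    ring

/-- the Hellinger sum -/
noncomputable def PIN_h {Ω α β : Type} [Fintype Ω] [DecidableEq α] [DecidableEq β] (X : Ω → α)
    (Y : Ω → β) : ℝ :=
  ∑ z ∈ Finset.univ.image X ×ˢ Finset.univ.image Y,
    (Real.sqrt (pr (fun w => (X w, Y w)) z) - Real.sqrt (pr X z.1 * pr Y z.2)) ^ 2

theorem PIN_sumP {Ω α β : Type} [Fintype Ω] [Nonempty Ω] [DecidableEq α] [DecidableEq β] (X : Ω → α)
    (Y : Ω → β) : ∑ z ∈ Finset.univ.image X ×ˢ Finset.univ.image Y, pr (fun w => (X w, Y w)) z = 1 := by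
  rw [← PIN_one (fun w => (X w, Y w))]
  refine (Finset.sum_subset (PIN_sub X Y) fun z _ hz => ?_).symm
  exact PIN_zero _ z hz

theorem PIN_sumQ {Ω α β : Type} [Fintype Ω] [Nonempty Ω] [DecidableEq α] [DecidableEq β] (X : Ω → α)
    (Y : Ω → β) : ∑ z ∈ Finset.univ.image X ×ˢ Finset.univ.image Y, pr X z.1 * pr Y z.2 = 1 := by
  rw [Finset.sum_product, ← Finset.sum_mul_sum, PIN_one, PIN_one, one_mul]

theorem PIN_h_eq {Ω α β : Type} [Fintype Ω] [Nonempty Ω] [DecidableEq α] [DecidableEq β] (X : Ω → α)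
    (Y : Ω → β) : PIN_h X Y = 2 - 2 * ∑ z ∈ Finset.univ.image X ×ˢ Finset.univ.image Y,
      Real.sqrt (pr (fun w => (X w, Y w)) z) * Real.sqrt (pr X z.1 * pr Y z.2) := by
  unfold PIN_h
  have e : ∀ z : α × β,
      (Real.sqrt (pr (fun w => (X w, Y w)) z) - Real.sqrt (pr X z.1 * pr Y z.2)) ^ 2 =
      pr (fun w => (X w, Y w)) z + pr X z.1 * pr Y z.2 -
        2 * (Real.sqrt (pr (fun w => (X w, Y w)) z) * Real.sqrt (pr X z.1 * pr Y z.2)) := by
    intro z
    have h1 := Real.sq_sqrt (PIN_nonneg (fun w => (X w, Y w)) z)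
    have h2 := Real.sq_sqrt (mul_nonneg (PIN_nonneg X z.1) (PIN_nonneg Y z.2))
    nlinarith
  rw [Finset.sum_congr rfl (fun z _ => e z), Finset.sum_sub_distrib, Finset.sum_add_distrib,
    PIN_sumP, PIN_sumQ, ← Finset.mul_sum]
  norm_num

theorem PIN_h_le {Ω α β : Type} [Fintype Ω] [Nonempty Ω] [DecidableEq α] [DecidableEq β] (X : Ω → α)
    (Y : Ω → β) : PIN_h X Y ≤ MI X Y := by
  have hN : (0 : ℝ) < (Fintype.card Ω : ℝ) := by exact_mod_cast Fintype.card_pos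
  have hMI : MI X Y = (∑ w, (Real.log (pr (fun w => (X w, Y w)) (X w, Y w)) -
      Real.log (pr X (X w) * pr Y (Y w)))) / (Fintype.card Ω : ℝ) := by
    have e : ∀ w, Real.log (pr X (X w) * pr Y (Y w)) = Real.log (pr X (X w)) + Real.log (pr Y (Y w)) :=
      fun w => Real.log_mul (PIN_pos X w).ne' (PIN_pos Y w).ne'
    rw [Finset.sum_sub_distrib, Finset.sum_congr rfl (fun w _ => e w), Finset.sum_add_distrib]
    unfold MI Ent
    ring
  have h1 : (∑ w, (2 - 2 * Real.sqrt (pr X (X w) * pr Y (Y w) / pr (fun w => (X w, Y w)) (X w, Y w)))) /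
      (Fintype.card Ω : ℝ) ≤ MI X Y := by
    rw [hMI]
    refine div_le_div_of_nonneg_right (Finset.sum_le_sum fun w _ => ?_) hN.le
    exact PIN_log _ _ (PIN_pos (fun w => (X w, Y w)) w) (mul_pos (PIN_pos X w) (PIN_pos Y w))
  refine le_trans (le_of_eq ?_) h1
  rw [PIN_joint X Y (fun z => 2 - 2 * Real.sqrt (pr X z.1 * pr Y z.2 / pr (fun w => (X w, Y w)) z)), PIN_h_eq]
  have e : ∀ z : α × β, pr (fun w => (X w, Y w)) z *
      (2 - 2 * Real.sqrt (pr X z.1 * pr Y z.2 / pr (fun w => (X w, Y w)) z)) =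
      2 * pr (fun w => (X w, Y w)) z -
      2 * (Real.sqrt (pr (fun w => (X w, Y w)) z) * Real.sqrt (pr X z.1 * pr Y z.2)) := by
    intro z
    rw [← PIN_mul_sqrt _ _ (PIN_nonneg (fun w => (X w, Y w)) z)]
    ring
  rw [Finset.sum_congr rfl (fun z _ => e z), Finset.sum_sub_distrib, ← Finset.mul_sum, PIN_sumP,
    ← Finset.mul_sum, mul_one]

theorem PIN_tv {Ω α β : Type} [Fintype Ω] [Nonempty Ω] [DecidableEq α] [DecidableEq β] (X : Ω → α)
    (Y : Ω → β) : ∑ z ∈ Finset.univ.image X ×ˢ Finset.univ.image Y,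
      |pr (fun w => (X w, Y w)) z - pr X z.1 * pr Y z.2| ≤ 2 * Real.sqrt (MI X Y) := by
  have e : ∀ z : α × β, |pr (fun w => (X w, Y w)) z - pr X z.1 * pr Y z.2| =
      |Real.sqrt (pr (fun w => (X w, Y w)) z) - Real.sqrt (pr X z.1 * pr Y z.2)| *
      (Real.sqrt (pr (fun w => (X w, Y w)) z) + Real.sqrt (pr X z.1 * pr Y z.2)) := by
    intro z
    have h1 := Real.sq_sqrt (PIN_nonneg (fun w => (X w, Y w)) z)
    have h2 := Real.sq_sqrt (mul_nonneg (PIN_nonneg X z.1) (PIN_nonneg Y z.2))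
    have h3 : 0 ≤ Real.sqrt (pr (fun w => (X w, Y w)) z) + Real.sqrt (pr X z.1 * pr Y z.2) :=
      add_nonneg (Real.sqrt_nonneg _) (Real.sqrt_nonneg _)
    have h6 : |Real.sqrt (pr (fun w => (X w, Y w)) z) - Real.sqrt (pr X z.1 * pr Y z.2)| *
        (Real.sqrt (pr (fun w => (X w, Y w)) z) + Real.sqrt (pr X z.1 * pr Y z.2)) =
        |(Real.sqrt (pr (fun w => (X w, Y w)) z) - Real.sqrt (pr X z.1 * pr Y z.2)) *
        (Real.sqrt (pr (fun w => (X w, Y w)) z) + Real.sqrt (pr X z.1 * pr Y z.2))| := by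
      rw [abs_mul, abs_of_nonneg h3]
    rw [h6]
    congr 1
    nlinarith
  rw [Finset.sum_congr rfl (fun z _ => e z)]
  refine (Real.sum_mul_le_sqrt_mul_sqrt _ _ _).trans ?_
  have h4 : ∑ z ∈ Finset.univ.image X ×ˢ Finset.univ.image Y,
      |Real.sqrt (pr (fun w => (X w, Y w)) z) - Real.sqrt (pr X z.1 * pr Y z.2)| ^ 2 ≤ MI X Y := by
    refine le_trans (le_of_eq ?_) (PIN_h_le X Y)
    unfold PIN_h
    exact Finset.sum_congr rfl fun z _ => sq_abs _
  have h5 : ∑ z ∈ Finset.univ.image X ×ˢ Finset.univ.image Y,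
      (Real.sqrt (pr (fun w => (X w, Y w)) z) + Real.sqrt (pr X z.1 * pr Y z.2)) ^ 2 ≤ 2 ^ 2 := by
    have e2 : ∀ z ∈ Finset.univ.image X ×ˢ Finset.univ.image Y,
        (Real.sqrt (pr (fun w => (X w, Y w)) z) + Real.sqrt (pr X z.1 * pr Y z.2)) ^ 2 ≤
        2 * (pr (fun w => (X w, Y w)) z + pr X z.1 * pr Y z.2) := by
      intro z _
      have h1 := Real.sq_sqrt (PIN_nonneg (fun w => (X w, Y w)) z)
      have h2 := Real.sq_sqrt (mul_nonneg (PIN_nonneg X z.1) (PIN_nonneg Y z.2))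
      nlinarith [sq_nonneg (Real.sqrt (pr (fun w => (X w, Y w)) z) - Real.sqrt (pr X z.1 * pr Y z.2))]
    refine (Finset.sum_le_sum e2).trans ?_
    rw [← Finset.mul_sum, Finset.sum_add_distrib, PIN_sumP, PIN_sumQ]
    norm_num
  rw [mul_comm]
  refine mul_le_mul ?_ (Real.sqrt_le_sqrt h4) (Real.sqrt_nonneg _) (by norm_num)
  exact (Real.sqrt_le_sqrt h5).trans (le_of_eq (Real.sqrt_sq (by norm_num)))

theorem t_pin : PIN := by
  intro Ω α β _ _ _ _ X Y
  refine ⟨?_, ?_⟩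
  · refine le_trans ?_ (PIN_h_le X Y)
    unfold PIN_h
    exact Finset.sum_nonneg fun z _ => sq_nonneg _
  · intro f g hf hg
    refine le_trans ?_ (PIN_tv X Y)
    have e1 := PIN_jointC X Y (fun z => f z.1 * g z.2)
    simp only at e1
    rw [e1, PIN_avgC X f, PIN_avgC Y g, Finset.sum_mul_sum, ← Finset.sum_product', ← Finset.sum_sub_distrib]
    refine (norm_sum_le _ _).trans (Finset.sum_le_sum fun z _ => ?_)
    have e2 : (pr (fun w => (X w, Y w)) z : ℂ) * (f z.1 * g z.2) - (pr X z.1 : ℂ) * f z.1 * ((pr Y z.2 : ℂ) * g z.2) =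
        ((pr (fun w => (X w, Y w)) z - pr X z.1 * pr Y z.2 : ℝ) : ℂ) * (f z.1 * g z.2) := by
      push_cast
      ring
    rw [e2, norm_mul, norm_mul, Complex.norm_real, Real.norm_eq_abs]
    have h1 : ‖f z.1‖ * ‖g z.2‖ ≤ 1 := by
      have := mul_le_mul (hf z.1) (hg z.2) (norm_nonneg _) zero_le_one
      linarith
    exact mul_le_of_le_one_right (abs_nonneg _) h1

end Pool.Agent.helper43.BMH
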